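import Mathlib

set_option autoImplicit false

namespace Pool.Agent.Results.MP_b62331_al.Counterexample

open Subgroup

def X (p : ℕ) (G : Type) [Group G] : Prop :=
  Nat.card G ∣ p ^ 3 ∧ (Nat.card G = p ^ 3 → IsMulCommutative G ∨ closure {g : G | g ^ p = 1} = ⊤)

theorem X_equiv {p : ℕ} {G H : Type} [Group G] [Group H] (e : G ≃* H) (h : X p G) : X p H := by
  refine ⟨Nat.card_congr e.toEquiv ▸ h.1, fun hc => (h.2 (Nat.card_congr e.toEquiv ▸ hc)).imp
    (fun h => ⟨⟨fun a b => e.symm.injective (by rw [map_mul, map_mul, h.1.1])⟩⟩) fun h => ?_⟩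
  rw [eq_top_iff, ← Subgroup.map_top_of_surjective e.toMonoidHom e.surjective, ← h,
    MonoidHom.map_closure]
  refine closure_mono ?_
  rintro _ ⟨g, hg, rfl⟩
  rw [Set.mem_ofPred_eq, ← map_pow, hg, map_one]

theorem squeeze {p k : ℕ} (hp : p.Prime) {G : Type} [Group G] [Finite G] {A B C : Subgroup G}
    (h1 : A < B) (h2 : B ≤ C) (hA : Nat.card A = p ^ k) (hC : Nat.card C = p ^ (k + 1)) : B = C := by
  obtain ⟨j, hj, e⟩ := (Nat.dvd_prime_pow hp).1 (hC ▸ card_dvd_of_le h2)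
  have : p ^ k < p ^ j := by
    rw [← hA, ← e]
    exact lt_of_not_ge fun h => h1.ne (eq_of_le_of_card_ge h1.le h)
  rw [Nat.pow_lt_pow_iff_right hp.one_lt] at this
  exact eq_of_le_of_card_ge h2 (by rw [hC, e, show j = k + 1 by omega])

theorem inf_center {p : ℕ} [Fact p.Prime] {G : Type} [Group G] [Finite G] (hG : IsPGroup p G)
    (C : Subgroup G) [C.Normal] (hC : C ≠ ⊥) : C ⊓ center G ≠ ⊥ := by
  have h1 : p ∣ Nat.card C := by
    obtain ⟨n, hn0, hn⟩ := (hG.to_subgroup C).nontrivial_iff_card.1 ((nontrivial_iff_ne_bot C).2 hC)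
    exact hn ▸ dvd_pow_self _ hn0.ne'
  obtain ⟨b, hb, h⟩ := (hG.of_equiv ConjAct.toConjAct).exists_fixed_point_of_prime_dvd_card_of_fixed_point
    C h1 (a := 1) fun g => smul_one g
  refine fun e => h (Subtype.ext (mem_bot.1 (e ▸ ⟨b.2, mem_center_iff.2 fun g => ?_⟩)).symm)
  have := congrArg Subtype.val (hb (ConjAct.toConjAct g))
  rw [← mul_inv_eq_iff_eq_mul]
  exact this

theorem step {p : ℕ} [Fact p.Prime] {G : Type} [Group G] [Finite G] (hG : IsPGroup p G)
    (N C : Subgroup G) [N.Normal] [C.Normal] (h : N < C) : ∃ M : Subgroup G, M.Normal ∧ N ≤ M ∧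
      Nat.card M = Nat.card N * p ∧ (C ≤ centralizer N → IsMulCommutative M) := by
  have h1 : C.map (QuotientGroup.mk' N) ≠ ⊥ := by
    rw [Ne, Subgroup.map_eq_bot_iff, QuotientGroup.ker_mk']
    exact h.not_ge
  have := Normal.map ‹C.Normal› _ (QuotientGroup.mk'_surjective N)
  have h2 := inf_center (hG.to_quotient N) _ h1
  obtain ⟨n, hn0, hn⟩ := ((hG.to_quotient N).to_subgroup _).nontrivial_iff_card.1
    ((nontrivial_iff_ne_bot _).2 h2)
  obtain ⟨z, hz⟩ := exists_prime_orderOf_dvd_card' p (hn ▸ dvd_pow_self p hn0.ne')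
  have hn : (zpowers z.1).Normal := ⟨fun x hx g => by
    rwa [mem_center_iff.1 ((zpowers_le.2 z.2.2) hx) g, mul_inv_cancel_right]⟩
  refine ⟨(zpowers z.1).comap (QuotientGroup.mk' N), hn.comap _, QuotientGroup.le_comap_mk' _ _,
    ?_, fun hC => ?_⟩
  · refine (QuotientGroup.card_preimage_mk N (zpowers z.1 : Set (G ⧸ N))).trans ?_
    rw [← hz, ← orderOf_coe, ← Nat.card_zpowers]
    rfl
  · have h3 : (zpowers z.1).comap (QuotientGroup.mk' N) ≤ C := by
      refine (comap_mono (zpowers_le.2 z.2.1)).trans ?_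
      rw [comap_map_eq, QuotientGroup.ker_mk', sup_eq_left.2 h.le]
    refine MonoidHom.isMulCommutative_of_isCyclic_of_ker_le_center
      ((QuotientGroup.mk' N).subgroupComap (zpowers z.1)) fun x hx => mem_center_iff.2 fun g => ?_
    have hx : x.1 ∈ N := (QuotientGroup.eq_one_iff _).1 (congrArg Subtype.val hx)
    exact Subtype.ext (hC (h3 g.2) _ hx).symm

theorem cond {p : ℕ} [hp : Fact p.Prime] {G : Type} [Group G] [Finite G] (hG : IsPGroup p G)
    (N : Subgroup G) (h : Maximal (fun K : Subgroup G => K.Normal ∧ X p K) N) :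
    Maximal (fun K : Subgroup G => X p K) N := by
  refine ⟨h.1.2, fun K hK hle => ?_⟩
  by_contra hlt
  have hlt : N < K := lt_of_le_not_ge hle hlt
  have hN := h.1.1
  have h0 : ∀ M : Subgroup G, M.Normal → N ≤ M → Nat.card M = Nat.card N * p → ¬ X p M := by
    intro M h1 h2 h3 h4
    have := card_le_of_le (h.2 ⟨h1, h4⟩ h2)
    have := hp.out.one_lt
    have := Nat.card_pos (α := N)
    nlinarith
  obtain ⟨j, hj, ej⟩ := (Nat.dvd_prime_pow hp.out).1 hK.1
  obtain ⟨i, -, ei⟩ := (Nat.dvd_prime_pow hp.out).1 h.1.2.1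
  have hij : p ^ i < p ^ j := by
    rw [← ei, ← ej]
    exact lt_of_not_ge fun h => hlt.ne (eq_of_le_of_card_ge hle h)
  rw [Nat.pow_lt_pow_iff_right hp.out.one_lt] at hij
  by_cases hi : i = 2
  swap
  · obtain ⟨M, h1, h2, h3, -⟩ := step hG N ⊤ (hlt.trans_le le_top)
    refine h0 M h1 h2 h3 ⟨?_, fun e => ?_⟩
    · rw [h3, ei, ← pow_succ]
      exact pow_dvd_pow _ (by omega)
    · rw [h3, ei, ← pow_succ, Nat.pow_right_inj hp.out.one_lt] at e
      omega
  subst hi
  obtain rfl : j = 3 := by omega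
  have hc : N ≤ centralizer N :=
    have := IsPGroup.isMulCommutative_of_card_eq_prime_sq ei
    le_centralizer N
  rcases hc.lt_or_eq with hc | hc
  · obtain ⟨M, h1, h2, h3, h4⟩ := step hG N (centralizer N) hc
    exact h0 M h1 h2 h3 ⟨by rw [h3, ei, ← pow_succ], fun _ => Or.inl (h4 le_rfl)⟩
  have h1 : ¬ N ≤ center G := fun h =>
    hlt.not_ge (le_top.trans ((centralizer_eq_top_iff_subset.2 h).ge.trans hc.ge))
  obtain ⟨n, hn, hn'⟩ := SetLike.not_le_iff_exists.1 h1
  have h2 : Nat.card (N ⊓ center G :) = p ^ 1 := by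
    obtain ⟨k, hk, ek⟩ := (Nat.dvd_prime_pow hp.out).1 (ei ▸ card_dvd_of_le (inf_le_left (b := center G)))
    have h3 : k ≠ 0 := by
      rintro rfl
      refine inf_center hG N (fun e => hn' ?_) (card_eq_one.1 ek)
      rw [e, mem_bot] at hn
      exact hn ▸ one_mem _
    have h4 : k ≠ 2 := by
      rintro rfl
      exact h1 (inf_eq_left.1 (eq_of_le_of_card_ge inf_le_left (by rw [ei, ek])))
    rw [ek, show k = 1 by omega]
  have h3 : centralizer {n} ≤ N := fun g hg => hc.ge fun x hx => by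
    have : N ⊓ centralizer {g} = N := squeeze hp.out (lt_of_le_not_ge
      (inf_le_inf_left _ (center_le_centralizer _)) fun h => hn' (h ⟨hn, mem_centralizer_singleton_iff.2
        (mem_centralizer_singleton_iff.1 hg).symm⟩).2) inf_le_left h2 ei
    exact mem_centralizer_singleton_iff.1 (this.ge hx).2
  have h4 := (MulAction.stabilizer (ConjAct G) n).card_mul_index
  rw [MulAction.index_stabilizer, ← Subgroup.nat_card_centralizer_nat_card_stabilizer,
    ← Nat.card_congr (ConjAct.toConjAct (G := G)).toEquiv] at h4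
  obtain ⟨k, hk⟩ := (hG.of_equiv ConjAct.toConjAct).card_orbit n
  have h5 : (MulAction.orbit (ConjAct G) n).ncard < (N : Set G).ncard := by
    refine Set.ncard_lt_ncard ⟨?_, fun h => hn' ?_⟩
    · rintro _ ⟨g, rfl⟩
      exact hN.conj_mem _ hn _
    · obtain ⟨g, hg⟩ := h N.one_mem
      rw [show n = 1 from (MulAction.injective g (hg.trans (smul_one g).symm))]
      exact one_mem _
  change Nat.card _ < Nat.card N at h5
  change _ * Nat.card _ = _ at h4
  rw [hk] at h4 h5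
  rw [ei, Nat.pow_lt_pow_iff_right hp.out.one_lt] at h5
  have h6 : K = ⊤ := eq_top_of_le_card _ (by
    rw [← h4, ej, pow_succ p 2, ← ei]
    exact Nat.mul_le_mul (card_le_of_le h3)
      ((Nat.pow_le_pow_right hp.out.pos (by omega)).trans (pow_one p).le))
  subst h6
  exact h0 ⊤ inferInstance le_top (by rw [ej, ei, pow_succ]) hK

@[ext] structure L (p : ℕ) where
  x : ZMod p
  y : ZMod p
  t : ZMod (p ^ 2)

def ι (p : ℕ) : ZMod p →+ ZMod (p ^ 2) :=
  ZMod.lift p ⟨zmultiplesHom _ (p : ZMod (p ^ 2)), by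
    rw [zmultiplesHom_apply, natCast_zsmul, nsmul_eq_mul, ← Nat.cast_mul, ← sq, ZMod.natCast_self]⟩

def ρ (p : ℕ) : ZMod (p ^ 2) →+* ZMod p := ZMod.castHom (dvd_pow_self p two_ne_zero) _

theorem ι_int (p : ℕ) (n : ℤ) : ι p n = n * p := by simp [ι]

theorem ρ_ι (p : ℕ) (s : ZMod p) : ρ p (ι p s) = 0 := by
  obtain ⟨n, rfl⟩ := ZMod.intCast_surjective s
  simp [ι_int]

theorem ι_ρ (p : ℕ) (t : ZMod (p ^ 2)) : ι p (ρ p t) = p • t := by
  obtain ⟨n, rfl⟩ := ZMod.intCast_surjective t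
  simp [ι_int, mul_comm]

theorem ι_inj {p : ℕ} [hp : Fact p.Prime] : Function.Injective (ι p) := by
  refine (injective_iff_map_eq_zero _).2 fun s hs => ?_
  obtain ⟨n, rfl⟩ := ZMod.intCast_surjective s
  rw [ι_int, ← Int.cast_natCast, ← Int.cast_mul, ZMod.intCast_zmod_eq_zero_iff_dvd, Nat.cast_pow,
    sq, mul_dvd_mul_iff_right (by exact_mod_cast hp.out.ne_zero)] at hs
  exact (ZMod.intCast_zmod_eq_zero_iff_dvd _ _).2 hs

section
variable {p : ℕ}
instance : Mul (L p) := ⟨fun a b => ⟨a.x + b.x, a.y + b.y, a.t + b.t + ι p (a.x * b.y)⟩⟩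
instance : One (L p) := ⟨⟨0, 0, 0⟩⟩
instance : Inv (L p) := ⟨fun a => ⟨-a.x, -a.y, -a.t + ι p (a.x * a.y)⟩⟩
@[simp] theorem mul_x (a b : L p) : (a * b).x = a.x + b.x := rfl
@[simp] theorem mul_y (a b : L p) : (a * b).y = a.y + b.y := rfl
@[simp] theorem mul_t (a b : L p) : (a * b).t = a.t + b.t + ι p (a.x * b.y) := rfl
@[simp] theorem one_x : (1 : L p).x = 0 := rfl
@[simp] theorem one_y : (1 : L p).y = 0 := rfl
@[simp] theorem one_t : (1 : L p).t = 0 := rfl
instance : Group (L p) := Group.ofLeftAxioms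
  (fun a b c => L.ext (add_assoc _ _ _) (add_assoc _ _ _) (by
    simp only [mul_t, mul_x, mul_y, add_mul, mul_add, map_add]
    ring))
  (fun a => L.ext (by simp) (by simp) (by simp))
  (fun a => L.ext (neg_add_cancel _) (neg_add_cancel _) (by
    change -a.t + ι p (a.x * a.y) + a.t + ι p (-a.x * a.y) = 0
    simp))

theorem pow_eq (a : L p) (n : ℕ) :
    a ^ n = ⟨n • a.x, n • a.y, n • a.t + ι p (n.choose 2 * (a.x * a.y))⟩ := by
  induction n with
  | zero => exact L.ext (by simp) (by simp) (by simp)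
  | succ n ih =>
    rw [pow_succ, ih]
    refine L.ext (by simp [add_mul]) (by simp [add_mul]) ?_
    simp only [mul_t, Nat.choose_succ_succ' n 1, Nat.choose_one_right, Nat.cast_add, add_mul,
      map_add, succ_nsmul, nsmul_eq_mul, mul_assoc]
    ring

def e : L p ≃ ZMod p × ZMod p × ZMod (p ^ 2) :=
  ⟨fun a => (a.x, a.y, a.t), fun a => ⟨a.1, a.2.1, a.2.2⟩, fun _ => rfl, fun _ => rfl⟩

theorem card_L : Nat.card (L p) = p ^ 4 := by
  simp [Nat.card_congr e]
  ring

def f₁ : L p →* Multiplicative (ZMod p) :=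
  MonoidHom.mk' (fun a => .ofAdd (a.x - a.y)) fun a b => by
    rw [← ofAdd_add, mul_x, mul_y]
    congr 1
    ring

def f₂ : L p →* Multiplicative (ZMod p) :=
  MonoidHom.mk' (fun a => .ofAdd (ρ p a.t)) fun a b => by simp [ρ_ι]

theorem surj : Function.Surjective ((f₁ (p := p)).prod f₂) := by
  rintro ⟨u, v⟩
  obtain ⟨t, ht⟩ := ZMod.ringHom_surjective (ρ p) v.toAdd
  exact ⟨⟨u.toAdd, 0, t⟩, by simp [f₁, f₂, ht]⟩

end

theorem h8 : ∀ a b c : ZMod 2, ¬a = 0 → a + (Nat.choose 2 2 : ℕ) * (b * c) = 0 → b = c := by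
  decide

/-- For every prime there is a class satisfying the maximality condition but not (A). -/
theorem result (p : ℕ) [hp : Fact p.Prime] : ∃ X : (G : Type) → [Group G] → Prop,
    (∀ (G : Type) [Group G], X G → Finite G) ∧
    (∀ (G H : Type) [Group G] [Group H], Nonempty (G ≃* H) → X G → X H) ∧
    (∀ (G : Type) [Group G] (H : Subgroup G), X G → X H) ∧
    (∀ (G : Type) [Group G] [Finite G], IsPGroup p G → ∀ N : Subgroup G,
      Maximal (fun K : Subgroup G => K.Normal ∧ X K) N → Maximal (fun K : Subgroup G => X K) N) ∧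
    ∃ (G : Type) (_ : Group G) (_ : Finite G), IsPGroup p G ∧ ∃ H : Subgroup G, X H ∧
      Set.ncard {K : Subgroup G | H < K ∧ X K ∧ H.relIndex K = p} = 2 ∧ ¬ 2 ≡ 1 [MOD p] := by
  have hp0 := hp.out.pos
  have hfin : ∀ (G : Type) [Group G], X p G → Finite G := fun G _ h =>
    Nat.finite_of_card_ne_zero (ne_zero_of_dvd_ne_zero (by positivity) h.1)
  have hL : Finite (L p) := Nat.finite_of_card_ne_zero (by rw [card_L]; positivity)
  refine ⟨X p, hfin, fun G H _ _ ⟨e⟩ => X_equiv e, fun G _ H h => ?_, fun G _ _ => cond,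
    L p, inferInstance, hL, IsPGroup.of_card card_L, f₁.ker ⊓ f₂.ker, ?_⟩
  · have := hfin G h
    by_cases hH : H = ⊤
    · exact hH ▸ X_equiv topEquiv.symm h
    refine ⟨H.card_subgroup_dvd_card.trans h.1, fun e => absurd (eq_top_of_le_card _ ?_) hH⟩
    exact e ▸ Nat.le_of_dvd (by positivity) h.1
  have hc : ∀ (K : Subgroup (L p)) (i j : ℕ), i + j = 4 → K.index = p ^ i → Nat.card K = p ^ j := by
    intro K i j hij h
    have := K.card_mul_index
    rw [h, card_L, ← hij, pow_add, mul_comm] at this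
    exact Nat.eq_of_mul_eq_mul_left (by positivity) this
  have i0 : (f₁.ker ⊓ f₂.ker : Subgroup (L p)).index = p ^ 2 := by
    rw [← MonoidHom.ker_prod, index_ker, MonoidHom.range_eq_top.2 surj]
    simp [sq]
  have i1 : (f₁ (p := p)).ker.index = p ^ 1 := by
    rw [index_ker, (MonoidHom.range_eq_top (f := f₁ (p := p))).2 (Prod.fst_surjective.comp surj)]
    simp
  have i2 : (f₂ (p := p)).ker.index = p ^ 1 := by
    rw [index_ker, (MonoidHom.range_eq_top (f := f₂ (p := p))).2 (Prod.snd_surjective.comp surj)]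
    simp
  have c0 := hc _ 2 2 rfl i0
  have c1 := hc _ 1 3 rfl i1
  have c2 := hc _ 1 3 rfl i2
  have hne : p ^ 2 ≠ p ^ 3 := fun h => by simpa using Nat.pow_right_injective hp.out.two_le h
  have m1 : ∀ a : L p, a ∈ f₁.ker ↔ a.x = a.y := fun a => by simp [f₁, div_eq_one]
  have m2 : ∀ a : L p, a ∈ f₂.ker ↔ ρ p a.t = 0 := fun a => by simp [f₂]
  have hr : ∀ K : Subgroup (L p), f₁.ker ⊓ f₂.ker ≤ K →
      ((f₁.ker ⊓ f₂.ker).relIndex K = p ↔ K.index = p ^ 1) := fun K hK => by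
    have := relIndex_mul_index hK
    rw [i0, sq] at this
    constructor <;> intro h <;> rw [h] at this
    · rw [Nat.eq_of_mul_eq_mul_left hp0 this, pow_one]
    · exact Nat.eq_of_mul_eq_mul_right hp0 (by simpa using this)
  refine ⟨⟨c0 ▸ pow_dvd_pow _ (by omega), fun h => absurd (c0 ▸ h) hne⟩, ?_, fun h => ?_⟩
  · rw [Set.ncard_eq_two]
    refine ⟨f₁.ker, f₂.ker, fun h => hne (by rw [← c0, ← c1, ← h, inf_idem]), Set.ext fun K => ⟨?_, ?_⟩⟩
    · rintro ⟨h1, h2, h3⟩
      have cK := hc K 1 3 rfl ((hr K h1.le).1 h3)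
      rcases h2.2 cK with h | h
      · refine Or.inl (eq_of_le_of_card_ge (fun a ha => (m1 a).2 (ι_inj ?_)) (by rw [c1, cK]))
        have := congrArg (fun b : K => b.1.t) (h.1.1 ⟨a, ha⟩
          ⟨⟨1, 1, 0⟩, h1.le ⟨(m1 _).2 rfl, (m2 _).2 (map_zero _)⟩⟩)
        simpa using this
      by_cases h4 : K ≤ f₂.ker
      · exact Or.inr (eq_of_le_of_card_ge h4 (by rw [c2, cK]))
      have h5 : ∃ g : K, g ^ p = 1 ∧ g.1 ∉ f₂.ker := by
        by_contra h5
        push Not at h5
        exact h4 fun a ha => ((closure_le (f₂.ker.subgroupOf K)).2 h5) (h.ge (mem_top ⟨a, ha⟩))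
      obtain ⟨g, hg, hg'⟩ := h5
      have h6 : g.1 ∈ f₁.ker := by
        have := congrArg (fun b : K => b.1.t) hg
        simp only [SubgroupClass.coe_pow, pow_eq, OneMemClass.coe_one, one_t, ← ι_ρ, ← map_add,
          map_eq_zero_iff _ ι_inj] at this
        rw [m2] at hg'
        rcases hp.out.eq_two_or_odd' with rfl | ho
        · rw [m1]
          exact h8 _ _ _ hg' this
        · rw [(ZMod.natCast_eq_zero_iff _ _).2 (hp.out.dvd_choose_self two_ne_zero
            (lt_of_le_of_ne hp.out.two_le (by rintro rfl; exact absurd ho (by decide)))),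
            zero_mul, add_zero] at this
          exact absurd this hg'
      have h7 : K ⊓ f₁.ker = K := squeeze hp.out (lt_of_le_not_ge (le_inf h1.le inf_le_left)
        fun h => hg' (h ⟨g.2, h6⟩).2) inf_le_left c0 cK
      exact Or.inl (eq_of_le_of_card_ge (inf_eq_left.1 h7) (by rw [c1, cK]))
    · rintro (rfl | rfl)
      · refine ⟨lt_of_le_of_ne inf_le_left fun h => hne (by rw [← c0, h, c1]),
          ⟨c1.dvd, fun _ => Or.inl ⟨⟨fun a b => Subtype.ext (L.ext (add_comm _ _) (add_comm _ _) ?_)⟩⟩⟩,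
          (hr _ inf_le_left).2 i1⟩
        simp [(m1 _).1 a.2, (m1 _).1 b.2, add_comm, mul_comm]
      · refine ⟨lt_of_le_of_ne inf_le_right fun h => hne (by rw [← c0, h, c2]),
          ⟨c2.dvd, fun _ => Or.inr (eq_top_iff.2 fun a _ => ?_)⟩, (hr _ inf_le_right).2 i2⟩
        have : a = ⟨⟨a.1.x, 0, 0⟩, (m2 _).2 (map_zero _)⟩ * ⟨⟨0, a.1.y, 0⟩, (m2 _).2 (map_zero _)⟩ *
            ⟨⟨0, 0, a.1.t - ι p (a.1.x * a.1.y)⟩, (m2 _).2 (by simp [(m2 _).1 a.2, ρ_ι])⟩ :=
          Subtype.ext (L.ext (by simp) (by simp) (by simp))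
        rw [this]
        refine mul_mem (mul_mem ?_ ?_) ?_ <;> refine subset_closure (Subtype.ext ?_) <;>
          refine (pow_eq _ _).trans (L.ext (by simp) (by simp) ?_)
        · simp
        · simp
        · simp [← ι_ρ, (m2 _).1 a.2, ρ_ι, -nsmul_eq_mul]
  · exact hp.out.one_lt.ne' (Nat.dvd_one.1 ((Nat.modEq_iff_dvd' one_le_two).1 h.symm))

end Pool.Agent.Results.MP_b62331_al.Counterexample
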